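import Pool.Agent.V5helper19.QC.Stm

/-!
# QC, job FOUR: Fourier coefficients of a polynomial on a circle
-/

set_option autoImplicit false
open Finset

namespace Pool.Agent.V5helper15.QC

lemma four_int (m : ℤ) : ∫ θ in (-Real.pi)..Real.pi, Complex.exp ((m : ℂ) * (θ : ℂ) * Complex.I) =
    if m = 0 then 2 * (Real.pi : ℂ) else 0 := by
  split_ifs with hm
  · subst hm
    simp only [Int.cast_zero, zero_mul, Complex.exp_zero, intervalIntegral.integral_const]
    rw [Complex.real_smul]
    push_cast
    ring
  · have hc : (m : ℂ) * Complex.I ≠ 0 := mul_ne_zero (by exact_mod_cast hm) Complex.I_ne_zero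
    have h1 : (fun θ : ℝ => Complex.exp ((m : ℂ) * (θ : ℂ) * Complex.I)) =
        fun θ : ℝ => Complex.exp (((m : ℂ) * Complex.I) * (θ : ℂ)) := by
      funext θ; congr 1; ring
    rw [h1, integral_exp_mul_complex hc]
    have h2 : Complex.exp ((m : ℂ) * Complex.I * (Real.pi : ℝ)) =
        Complex.exp ((m : ℂ) * Complex.I * ((-Real.pi : ℝ) : ℂ)) := by
      rw [Complex.exp_eq_exp_iff_exists_int]
      refine ⟨m, ?_⟩
      push_cast
      ring
    rw [h2, sub_self, zero_div]

theorem t_FOUR : V5helper19.QC.S_FOUR := by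
  intro p k q _
  have h0 : ∀ θ : ℝ, (Polynomial.aeval ((q : ℂ) * Complex.exp (-((θ : ℂ) * Complex.I))) p) *
      Complex.exp ((k : ℂ) * (θ : ℂ) * Complex.I) = ∑ i ∈ range (p.natDegree + 1),
        ((p.coeff i : ℂ) * (q : ℂ) ^ i) * Complex.exp ((((k : ℤ) - (i : ℤ) : ℤ) : ℂ) * (θ : ℂ) *
          Complex.I) := by
    intro θ
    rw [Polynomial.aeval_eq_sum_range, Finset.sum_mul]
    refine Finset.sum_congr rfl fun i _ => ?_
    have e : Complex.exp ((((k : ℤ) - (i : ℤ) : ℤ) : ℂ) * (θ : ℂ) * Complex.I) =
        Complex.exp (-((θ : ℂ) * Complex.I)) ^ i * Complex.exp ((k : ℂ) * (θ : ℂ) * Complex.I) := by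
      rw [← Complex.exp_nat_mul, ← Complex.exp_add]
      congr 1
      push_cast
      ring
    rw [zsmul_eq_mul, mul_pow, e]
    ring
  simp_rw [h0]
  rw [intervalIntegral.integral_finsetSum fun i _ =>
    (Continuous.intervalIntegrable (by fun_prop) _ _)]
  simp_rw [intervalIntegral.integral_const_mul, four_int]
  by_cases hk : k ∈ range (p.natDegree + 1)
  · rw [Finset.sum_eq_single_of_mem k hk]
    · rw [if_pos (sub_self _)]
      ring
    · intro i _ hi
      rw [if_neg, mul_zero]
      intro h
      exact hi (by omega)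
  · rw [Finset.sum_eq_zero]
    · have : p.coeff k = 0 := Polynomial.coeff_eq_zero_of_natDegree_lt (by
        simpa [Finset.mem_range, Nat.lt_succ_iff] using hk)
      rw [this]
      simp
    · intro i hi
      rw [if_neg, mul_zero]
      intro h
      apply hk
      have : i = k := by omega
      exact this ▸ hi

end Pool.Agent.V5helper15.QC
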